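import Mathlib
import Pool.Agent.H7EntDefs
import Pool.Agent.H7EntD

/-!
# Entropic CLT rates under a finite fourth moment: both inequalities fail

The counterexamples are the Gaussian mixtures
`(1-δ) N(0,v) + (δ/2) N(L,v) + (δ/2) N(-L,v)` with `L = K²`, `δ = K⁻⁸`, `v = 1 - K⁻⁴`, and the
index is `n = K²`.
-/

set_option autoImplicit false

open MeasureTheory ProbabilityTheory Pool.Agent.H7Ent
open scoped ENNReal

namespace Pool.Agent.Results.MP_e841a3_pr.BothFail

/-- Q1 and Q2 are both false. Moreover, for one and the same bound `M` on the fourth moment and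
every `C` there are a law `μ` with finite `J(f_1‖φ)` and `D(f_1‖φ)` and an index `n ≥ 1` for which
both inequalities fail simultaneously. -/
theorem result :
    ¬ Q1 ∧ ¬ Q2 ∧
    ∃ M : ℝ, ∀ C : ℝ, ∃ (μ : Measure ℝ) (n : ℕ), Admissible M μ ∧ 1 ≤ n ∧
      J μ < ⊤ ∧ D μ < ⊤ ∧ ENNReal.ofReal (C / n) * J μ < J (lawS μ n) ∧
        ENNReal.ofReal (C / n) * D μ < D (lawS μ n) := by
  obtain ⟨M, hM⟩ := strong
  refine ⟨?_, ?_, M, hM⟩
  · intro h
    obtain ⟨C, hC⟩ := h M
    obtain ⟨μ, n, h1, h2, -, -, h3, -⟩ := hM C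
    exact absurd (hC μ h1 n h2) (not_le.2 h3)
  · intro h
    obtain ⟨C, hC⟩ := h M
    obtain ⟨μ, n, h1, h2, -, -, -, h3⟩ := hM C
    exact absurd (hC μ h1 n h2) (not_le.2 h3)

end Pool.Agent.Results.MP_e841a3_pr.BothFail
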